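import Mathlib

set_option autoImplicit false
open MeasureTheory Filter Topology Complex Set

namespace Pool.Agent.H.MP_15dca6_an

noncomputable def db (g : ℂ → ℂ) (z : ℂ) : ℂ := fderiv ℝ g z 1 + I * fderiv ℝ g z I

theorem db_cont {g : ℂ → ℂ} (hg : ContDiff ℝ 1 g) : Continuous (db g) := by
  have := hg.continuous_fderiv one_ne_zero
  unfold db
  fun_prop

theorem db_not {g : ℂ → ℂ} {z c : ℂ} (h : ∀ᶠ w in 𝓝 z, g w = c) : z ∉ tsupport (db g) := by
  rw [notMem_tsupport_iff_eventuallyEq]
  filter_upwards [h.eventually_nhds] with w hw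
  have : fderiv ℝ g w = 0 := by
    rw [Filter.EventuallyEq.fderiv_eq (f := fun _ => c) hw]; simp
  simp [db, this]

theorem db_supp (g : ℂ → ℂ) : tsupport (db g) ⊆ tsupport g := fun z hz => by
  by_contra h
  exact db_not (c := 0) (notMem_tsupport_iff_eventuallyEq.1 h) hz

theorem db_cpt {g : ℂ → ℂ} (hc : HasCompactSupport g) : HasCompactSupport (db g) :=
  hc.isCompact.of_isClosed_subset (isClosed_tsupport _) (db_supp g)

theorem cts {X E : Type*} [TopologicalSpace X] [NormedAddCommGroup E] [NormedSpace ℂ E]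
    {u : X → ℂ} {h : X → E} (hu : Continuous u) (hh : ∀ x ∈ tsupport u, ContinuousAt h x) :
    Continuous fun x => u x • h x := by
  rw [continuous_iff_continuousAt]
  intro x
  by_cases hx : x ∈ tsupport u
  · exact hu.continuousAt.smul (hh x hx)
  · refine (continuousAt_const (y := (0 : E))).congr ?_
    filter_upwards [notMem_tsupport_iff_eventuallyEq.1 hx] with y hy
    simp [hy]

theorem integ {E : Type*} [NormedAddCommGroup E] [NormedSpace ℂ E]
    {u : ℂ → ℂ} {h : ℂ → E} (hu : Continuous u) (hc : HasCompactSupport u)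
    (hh : ∀ x ∈ tsupport u, ContinuousAt h x) : Integrable fun x => u x • h x :=
  (cts hu hh).integrable_of_hasCompactSupport hc.smul_right

theorem inv_at {μ x : ℂ} (h : x ≠ μ) : ContinuousAt (fun z : ℂ => (z - μ)⁻¹) x :=
  (continuousAt_id.sub continuousAt_const).inv₀ (sub_ne_zero.2 h)

theorem cauchy0 {g : ℂ → ℂ} (hg : ContDiff ℝ 1 g) (hc : HasCompactSupport g) {μ : ℂ}
    (hμ : μ ∉ tsupport g) : ∫ z, db g z * (z - μ)⁻¹ = 0 := by
  have hne : ∀ x ∈ tsupport g, x ≠ μ := fun x hx e => hμ (e ▸ hx)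
  have hd := hg.continuous_fderiv one_ne_zero
  have i1 : Integrable fun x => g x • ((x - μ)⁻¹ ^ 2) :=
    integ hg.continuous hc fun x hx => (inv_at (hne x hx)).pow 2
  have i2 : ∀ v : ℂ, Integrable fun x => fderiv ℝ g x v • (x - μ)⁻¹ := fun v =>
    integ (by fun_prop) (hc.fderiv_apply (𝕜 := ℝ) v) fun x hx =>
      inv_at (hne x (tsupport_fderiv_apply_subset ℝ v hx))
  have key : ∀ v : ℂ, ∫ x, fderiv ℝ g x v * (x - μ)⁻¹ = v * ∫ x, g x * (x - μ)⁻¹ ^ 2 := by
    intro v
    have := integral_bilinear_hasLineDerivAt_right_eq_neg_left_of_integrable (μ := volume)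
      (f := fun x => (x - μ)⁻¹) (f' := fun x => -(v * (x - μ)⁻¹ ^ 2)) (g := g)
      (g' := fun x => fderiv ℝ g x v) (v := v) (B := ContinuousLinearMap.mul ℝ ℂ)
      ((i1.const_mul (-v)).congr (.of_forall fun x => by simp; ring))
      ((i2 v).congr (.of_forall fun x => by simp; ring))
      ((integ hg.continuous hc fun x hx => inv_at (hne x hx)).congr
        (.of_forall fun x => by simp; ring))
      (fun x hx => by
        have h1 := ((hasDerivAt_id x).sub_const μ).inv (sub_ne_zero.2 (hne x hx))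
        have h2 := (h1.hasFDerivAt.restrictScalars ℝ).hasLineDerivAt v
        convert! h2 using 1
        simp; ring)
      (fun x _ => (hg.differentiable one_ne_zero x).hasFDerivAt.hasLineDerivAt v)
    simp only [ContinuousLinearMap.mul_apply'] at this
    rw [← integral_const_mul, ← integral_neg] at *
    refine (integral_congr_ae (.of_forall fun x => mul_comm _ _)).trans (this.trans ?_)
    congr 1; ext x; ring
  have e : ∀ z, db g z * (z - μ)⁻¹ =
      fderiv ℝ g z 1 * (z - μ)⁻¹ + I * (fderiv ℝ g z I * (z - μ)⁻¹) := fun z => by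
    unfold db; ring
  simp only [e, smul_eq_mul] at i2 ⊢
  rw [integral_add (i2 1) ((i2 I).const_mul I), integral_const_mul, key, key, ← mul_assoc, I_mul_I]
  ring

noncomputable def be (z : ℂ) : ℂ := Real.smoothTransition (2 - ‖z‖ ^ 2)

theorem be_diff : ContDiff ℝ 1 be := by
  unfold be
  exact ofRealCLM.contDiff.comp (Real.smoothTransition.contDiff.comp
    (contDiff_const.sub (contDiff_norm_sq ℝ)))

theorem be_cpt : HasCompactSupport be := by
  refine HasCompactSupport.intro (isCompact_closedBall (0 : ℂ) 2) fun z hz => ?_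
  rw [mem_closedBall_zero_iff, not_le] at hz
  unfold be
  rw [Real.smoothTransition.zero_of_nonpos (by nlinarith), ofReal_zero]

theorem be_one : ∀ᶠ w in 𝓝 (0 : ℂ), be w = 1 := by
  filter_upwards [Metric.ball_mem_nhds (0 : ℂ) one_pos] with w hw
  rw [mem_ball_zero_iff] at hw
  unfold be
  rw [Real.smoothTransition.one_of_one_le (by nlinarith [norm_nonneg w]), ofReal_one]

theorem db_be (z : ℂ) : db be z = -2 * z * (deriv Real.smoothTransition (2 - ‖z‖ ^ 2) : ℝ) := by
  have h1 : HasDerivAt Real.smoothTransition (deriv Real.smoothTransition (2 - ‖z‖ ^ 2))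
      (2 - ‖z‖ ^ 2) :=
    ((Real.smoothTransition.contDiff (n := 1)).differentiable one_ne_zero _).hasDerivAt
  have h2 := ((hasStrictFDerivAt_norm_sq z).hasFDerivAt.const_sub 2)
  have h3 := ofRealCLM.hasFDerivAt.comp z (h1.comp_hasFDerivAt z h2)
  have h4 : fderiv ℝ be z = _ := h3.fderiv
  unfold db
  rw [h4]
  simp [Complex.inner]
  nth_rewrite 5 [← re_add_im z]
  ring

theorem kappa : ∫ z, db be z * z⁻¹ ≠ 0 := by
  have hc : Continuous (deriv Real.smoothTransition) :=
    (Real.smoothTransition.contDiff (n := 1)).continuous_deriv le_rfl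
  have e : ∫ z, db be z * z⁻¹ =
      -2 * ((∫ z : ℂ, deriv Real.smoothTransition (2 - ‖z‖ ^ 2) : ℝ) : ℂ) := by
    rw [← integral_complex_ofReal, ← integral_const_mul]
    apply integral_congr_ae
    filter_upwards [compl_mem_ae_iff.2 (measure_singleton (0 : ℂ))] with z hz
    have : z ≠ 0 := hz
    rw [db_be]
    field_simp
  obtain ⟨t, ht, h2⟩ := exists_deriv_eq_slope Real.smoothTransition one_pos
    Real.smoothTransition.continuous.continuousOn
    ((Real.smoothTransition.contDiff (n := 1)).differentiable one_ne_zero).differentiableOn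
  have h3 : 0 < ∫ z : ℂ, deriv Real.smoothTransition (2 - ‖z‖ ^ 2) := by
    refine Continuous.integral_pos_of_hasCompactSupport_nonneg_nonzero (x := (√(2 - t) : ℝ))
      (by fun_prop) ?_ (fun z => Real.smoothTransition.monotone.deriv_nonneg) ?_
    · refine HasCompactSupport.intro (isCompact_closedBall (0 : ℂ) 2) fun z hz => ?_
      rw [mem_closedBall_zero_iff, not_le] at hz
      have : Real.smoothTransition =ᶠ[𝓝 (2 - ‖z‖ ^ 2)] fun _ => 0 := by
        filter_upwards [Iio_mem_nhds (show 2 - ‖z‖ ^ 2 < 0 by nlinarith)] with x hx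
        exact Real.smoothTransition.zero_of_nonpos (le_of_lt hx)
      rw [this.deriv_eq]; simp
    · rw [norm_real, Real.norm_eq_abs, sq_abs, Real.sq_sqrt (by linarith [ht.2]), sub_sub_cancel, h2]
      simp
  rw [e]
  exact mul_ne_zero (by norm_num) (by exact_mod_cast h3.ne')

theorem cauchy1 {g : ℂ → ℂ} (hg : ContDiff ℝ 1 g) (hc : HasCompactSupport g) {μ : ℂ}
    (hμ : ∀ᶠ w in 𝓝 μ, g w = 1) : ∫ z, db g z * (z - μ)⁻¹ ≠ 0 := by
  have b1 : ContDiff ℝ 1 fun z => be (z - μ) := be_diff.comp (contDiff_id.sub contDiff_const)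
  have b2 : HasCompactSupport fun z => be (z - μ) :=
    be_cpt.comp_homeomorph (Homeomorph.subRight μ)
  have b3 : ∀ᶠ w in 𝓝 μ, be (w - μ) = 1 :=
    (show Tendsto (fun w => w - μ) (𝓝 μ) (𝓝 0) from
      (continuous_sub_right μ).tendsto' μ 0 (sub_self μ)).eventually be_one
  have h0 := cauchy0 (hg.sub b1) (hc.sub b2) (μ := μ) (by
    rw [notMem_tsupport_iff_eventuallyEq]
    filter_upwards [hμ, b3] with w h1 h2
    simp [h1, h2])
  have e : ∀ z, db (fun z => g z - be (z - μ)) z * (z - μ)⁻¹ =
      db g z * (z - μ)⁻¹ - db (fun z => be (z - μ)) z * (z - μ)⁻¹ := fun z => by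
    unfold db
    rw [fderiv_fun_sub (hg.differentiable one_ne_zero z) (b1.differentiable one_ne_zero z)]
    simp only [_root_.sub_apply]
    ring
  simp only [e] at h0
  have i1 : Integrable fun x => db g x * (x - μ)⁻¹ :=
    integ (db_cont hg) (db_cpt hc) fun x hx => inv_at (μ := μ) fun e => db_not hμ (e ▸ hx)
  have i2 : Integrable fun x => db (fun z => be (z - μ)) x * (x - μ)⁻¹ :=
    integ (db_cont b1) (db_cpt b2) fun x hx => inv_at (μ := μ) fun e => db_not b3 (e ▸ hx)
  rw [integral_sub i1 i2, sub_eq_zero] at h0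
  rw [h0]
  have e2 : ∀ z, db (fun z => be (z - μ)) z = db be (z - μ) := fun z => by
    unfold db; rw [fderiv_comp_sub]
  simp only [e2]
  rw [integral_sub_right_eq_self (fun z => db be z * z⁻¹)]
  exact kappa

end Pool.Agent.H.MP_15dca6_an
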