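import Pool.Agent.H.MP_15dca6_an.A

set_option autoImplicit false
open MeasureTheory Filter Topology Complex Set
open scoped Manifold

namespace Pool.Agent.H.MP_15dca6_an

variable {A : Type*} [NormedRing A] [NormedAlgebra ℂ A] [CompleteSpace A]

noncomputable def PP (a : A) (g : ℂ → ℂ) : A := ∫ z, db g z • resolvent a z

noncomputable def GG (a : A) (g : ℂ → ℂ) (μ : ℂ) : A :=
  ∫ z, (db g z * (z - μ)⁻¹) • resolvent a z

structure Ok (a : A) (g : ℂ → ℂ) : Prop where
  d : ContDiff ℝ 1 g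
  c : HasCompactSupport g
  r : ∀ z ∈ tsupport (db g), z ∈ resolventSet ℂ a

theorem res_at {a : A} {z : ℂ} (h : z ∈ resolventSet ℂ a) : ContinuousAt (resolvent a) z :=
  (spectrum.hasDerivAt_resolvent_const_left h).continuousAt

theorem Ok.iP {a : A} {g : ℂ → ℂ} (h : Ok a g) : Integrable fun z => db g z • resolvent a z :=
  integ (db_cont h.d) (db_cpt h.c) fun x hx => res_at (h.r x hx)

theorem Ok.iG {a : A} {g : ℂ → ℂ} (h : Ok a g) {μ : ℂ} (hμ : μ ∉ tsupport (db g)) :
    Integrable fun z => (db g z * (z - μ)⁻¹) • resolvent a z := by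
  simp only [mul_smul]
  exact integ (db_cont h.d) (db_cpt h.c) fun x hx =>
    (inv_at (μ := μ) fun e => hμ (e ▸ hx)).smul (res_at (h.r x hx))

omit [CompleteSpace A] in
theorem res_l {a : A} {z : ℂ} (h : z ∈ resolventSet ℂ a) (μ : ℂ) :
    (algebraMap ℂ A μ - a) * resolvent a z = 1 - (z - μ) • resolvent a z ∧
    resolvent a z * (algebraMap ℂ A μ - a) = 1 - (z - μ) • resolvent a z := by
  have e : algebraMap ℂ A μ - a = (algebraMap ℂ A z - a) - (z - μ) • 1 := by
    simp only [Algebra.algebraMap_eq_smul_one, sub_smul]; abel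
  have h1 : (algebraMap ℂ A z - a) * resolvent a z = 1 := Ring.mul_inverse_cancel _ h
  have h2 : resolvent a z * (algebraMap ℂ A z - a) = 1 := Ring.inverse_mul_cancel _ h
  constructor
  · rw [e, sub_mul, h1, smul_mul_assoc, one_mul]
  · rw [e, mul_sub, h2, mul_smul_comm, mul_one]

theorem Ok.id {a : A} {g : ℂ → ℂ} (h : Ok a g) {μ : ℂ} (hμ : μ ∉ tsupport (db g)) :
    (algebraMap ℂ A μ - a) * GG a g μ = (∫ z, db g z * (z - μ)⁻¹) • 1 - PP a g ∧
    GG a g μ * (algebraMap ℂ A μ - a) = (∫ z, db g z * (z - μ)⁻¹) • 1 - PP a g := by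
  have i1 : Integrable fun x => db g x * (x - μ)⁻¹ :=
    integ (db_cont h.d) (db_cpt h.c) fun x hx => inv_at (μ := μ) fun e => hμ (e ▸ hx)
  have e : ∀ z, (db g z * (z - μ)⁻¹) • (1 - (z - μ) • resolvent a z) =
      (db g z * (z - μ)⁻¹) • (1 : A) - db g z • resolvent a z := fun z => by
    by_cases hz : z = μ
    · simp [hz, image_eq_zero_of_notMem_tsupport hμ]
    · rw [smul_sub, smul_smul, inv_mul_cancel_right₀ (sub_ne_zero.2 hz)]
  unfold GG PP
  rw [← integral_const_mul_of_integrable (h.iG hμ), ← integral_mul_const_of_integrable (h.iG hμ),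
    ← integral_smul_const, ← integral_sub (i1.smul_const _) h.iP]
  constructor <;> congr 1 <;> ext z <;> rw [← e] <;> by_cases hz : z ∈ tsupport (db g)
  · rw [mul_smul_comm, (res_l (h.r z hz) μ).1]
  · simp [image_eq_zero_of_notMem_tsupport hz]
  · rw [smul_mul_assoc, (res_l (h.r z hz) μ).2]
  · simp [image_eq_zero_of_notMem_tsupport hz]

theorem Ok.comm {a : A} {g : ℂ → ℂ} (h : Ok a g) : Commute a (PP a g) := by
  unfold PP
  rw [Commute, SemiconjBy, ← integral_const_mul_of_integrable h.iP,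
    ← integral_mul_const_of_integrable h.iP]
  congr 1
  ext z
  by_cases hz : z ∈ tsupport (db g)
  · obtain ⟨h1, h2⟩ := res_l (h.r z hz) 0
    simp only [map_zero, zero_sub, neg_mul, mul_neg] at h1 h2
    rw [mul_smul_comm, smul_mul_assoc, neg_inj.1 (h1.trans h2.symm)]
  · simp [image_eq_zero_of_notMem_tsupport hz]

theorem Ok.ne {a : A} {g : ℂ → ℂ} (h : Ok a g) {μ : ℂ} (hμ : ∀ᶠ w in 𝓝 μ, g w = 1)
    (hs : μ ∈ spectrum ℂ a) : PP a g ≠ 0 := by
  intro h0
  obtain ⟨h1, h2⟩ := h.id (db_not hμ)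
  have hk := cauchy1 h.d h.c hμ
  rw [h0, sub_zero] at h1 h2
  generalize ∫ z, db g z * (z - μ)⁻¹ = k at h1 h2 hk
  refine hs (spectrum.mem_resolventSet_of_left_right_inverse (b := k⁻¹ • GG a g μ)
    (c := k⁻¹ • GG a g μ) ?_ ?_)
  · rw [mul_smul_comm, h1, smul_smul, inv_mul_cancel₀ hk, one_smul]
  · rw [smul_mul_assoc, h2, smul_smul, inv_mul_cancel₀ hk, one_smul]

theorem Ok.mul {a : A} {g f : ℂ → ℂ} (h : Ok a g) (h' : Ok a f)
    (hd : Disjoint (tsupport g) (tsupport f)) : PP a f * PP a g = 0 := by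
  have hd' := Set.disjoint_left.1 hd
  have e1 : PP a f * PP a g = -∫ μ, db f μ • GG a g μ := by
    rw [PP, ← integral_mul_const_of_integrable h'.iP, ← integral_neg]
    congr 1
    ext μ
    by_cases hz : μ ∈ tsupport (db f)
    · have h1 : μ ∉ tsupport g := fun e => hd' e (db_supp f hz)
      have h2 := (h.id fun e => h1 (db_supp g e)).1
      rw [cauchy0 h.d h.c h1, zero_smul, zero_sub] at h2
      have h3 := (res_l (h'.r μ hz) μ).2
      rw [smul_mul_assoc, ← neg_neg (PP a g), ← h2, mul_neg, ← mul_assoc, h3]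
      simp
    · simp [image_eq_zero_of_notMem_tsupport hz]
  have c1 := db_cont h.d
  have c2 := db_cont h'.d
  have s1 : tsupport (fun p : ℂ × ℂ => db f p.1 * db g p.2) ⊆
      tsupport (db f) ×ˢ tsupport (db g) :=
    closure_minimal (fun p hp => ⟨subset_tsupport _ (left_ne_zero_of_mul hp),
      subset_tsupport _ (right_ne_zero_of_mul hp)⟩) ((isClosed_tsupport _).prod (isClosed_tsupport _))
  have i1 : Integrable (fun p : ℂ × ℂ => (db f p.1 * db g p.2) • ((p.2 - p.1)⁻¹ • resolvent a p.2))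
      (volume.prod volume) := by
    refine (cts (by fun_prop) fun p hp => ?_).integrable_of_hasCompactSupport
      (HasCompactSupport.smul_right (((db_cpt h'.c).isCompact.prod
        (db_cpt h.c).isCompact).of_isClosed_subset (isClosed_tsupport _) s1))
    obtain ⟨h1, h2⟩ := s1 hp
    refine ContinuousAt.smul (ContinuousAt.inv₀ (by fun_prop) (sub_ne_zero.2 fun e => ?_))
      ((res_at (h.r _ h2)).comp continuousAt_snd)
    exact hd' (db_supp g h2) (e ▸ db_supp f h1)
  have e2 : ∫ μ, db f μ • GG a g μ =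
      ∫ μ, ∫ z, (db f μ * db g z) • ((z - μ)⁻¹ • resolvent a z) := by
    congr 1; ext μ
    rw [GG, ← integral_smul]
    simp only [mul_smul]
  rw [e1, e2, integral_integral_swap i1, neg_eq_zero]
  refine integral_eq_zero_of_ae (.of_forall fun z => ?_)
  have e3 : ∀ μ, (db f μ * db g z) • ((z - μ)⁻¹ • resolvent a z) =
      (db f μ * (μ - z)⁻¹) • (-db g z • resolvent a z) := fun μ => by
    rw [smul_smul, smul_smul, ← neg_sub μ z, inv_neg]; congr 1; ring
  simp only [e3, integral_smul_const, Pi.zero_apply]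
  by_cases hz : z ∈ tsupport (db g)
  · rw [cauchy0 h'.d h'.c (hd' (db_supp g hz)), zero_smul]
  · simp [image_eq_zero_of_notMem_tsupport hz]

theorem cut {K U : Set ℂ} (hK : IsCompact K) (hU : IsOpen U) (h : K ⊆ U) : ∃ g : ℂ → ℂ,
    ContDiff ℝ 1 g ∧ HasCompactSupport g ∧ tsupport g ⊆ U ∧ ∀ μ ∈ K, ∀ᶠ w in 𝓝 μ, g w = 1 := by
  obtain ⟨L, h1, h2, h3⟩ := exists_compact_between hK hU h
  obtain ⟨f, f1, f2, -⟩ := exists_contMDiffMap_one_nhds_of_subset_interior (n := 1) 𝓘(ℝ, ℂ)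
    hK.isClosed h2
  have s : tsupport (fun z => (f z : ℂ)) ⊆ L :=
    closure_minimal (fun z hz => by_contra fun e => hz (by simp [f2 z e])) h1.isClosed
  refine ⟨fun z => f z, ofRealCLM.contDiff.comp f.contMDiff.contDiff,
    h1.of_isClosed_subset (isClosed_tsupport _) s, s.trans h3, fun μ hμ => ?_⟩
  filter_upwards [nhds_le_nhdsSet hμ f1] with w hw
  simp [show f w = 1 from hw]

theorem spec_conn (a : A) (h : ∀ P Q : A, Commute a Q → Q * P = 0 → Q = 0 ∨ P = 0) :
    IsPreconnected (spectrum ℂ a) := by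
  have hK := spectrum.isCompact (𝕜 := ℂ) a
  rw [isPreconnected_iff_subset_of_fully_disjoint_closed hK.isClosed]
  intro u v hu hv hs hd
  by_contra! hc
  obtain ⟨x, x1, x2⟩ := not_subset.1 hc.1
  obtain ⟨y, y1, y2⟩ := not_subset.1 hc.2
  obtain ⟨U, V, U1, V1, U2, V2, hUV⟩ := SeparatedNhds.of_isCompact_isCompact
    (hK.inter_right hu) (hK.inter_right hv) (hd.mono inter_subset_right inter_subset_right)
  obtain ⟨g, g1, g2, g3, g4⟩ := cut (hK.inter_right hu) U1 U2
  obtain ⟨f, f1, f2, f3, f4⟩ := cut (hK.inter_right hv) V1 V2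
  have hd' := Set.disjoint_left.1 hUV
  have og : Ok a g := ⟨g1, g2, fun z hz => by_contra fun e => (hs e).elim
    (fun e' => db_not (g4 z ⟨e, e'⟩) hz) fun e' => hd' (g3 (db_supp g hz)) (V2 ⟨e, e'⟩)⟩
  have of : Ok a f := ⟨f1, f2, fun z hz => by_contra fun e => (hs e).elim
    (fun e' => hd' (U2 ⟨e, e'⟩) (f3 (db_supp f hz))) fun e' => db_not (f4 z ⟨e, e'⟩) hz⟩
  rcases h _ _ of.comm (og.mul of (hUV.mono g3 f3)) with h1 | h1
  · exact of.ne (f4 x ⟨x1, (hs x1).resolve_left x2⟩) x1 h1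
  · exact og.ne (g4 y ⟨y1, (hs y1).resolve_right y2⟩) y1 h1

end Pool.Agent.H.MP_15dca6_an
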