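import Pool.Agent.H.MP_15dca6_an.B

set_option autoImplicit false
open Filter Topology Complex Set

namespace Pool.Agent.H.MP_15dca6_an

variable {E F : Type*} [NormedAddCommGroup E] [NormedSpace ℂ E]
  [NormedAddCommGroup F] [NormedSpace ℂ F]

def bb (A : E →L[ℂ] F) : Prop := ∃ c : ℝ, 0 < c ∧ ∀ v, c * ‖v‖ ≤ ‖A v‖

theorem bb_iff (A : E →L[ℂ] F) : bb A ↔ ∃ K, AntilipschitzWith K A :=
  antilipschitzWith_iff_exists_mul_le_norm.symm

theorem bb.loc {A : ℂ → E →L[ℂ] F} (hA : Continuous A) {z : ℂ} (h : bb (A z)) :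
    ∃ c : ℝ, 0 < c ∧ ∀ᶠ w in 𝓝 z, ∀ v, c * ‖v‖ ≤ ‖A w v‖ := by
  obtain ⟨c, hc, h⟩ := h
  refine ⟨c / 2, half_pos hc, ?_⟩
  filter_upwards [hA.continuousAt.eventually (Metric.ball_mem_nhds (A z) (half_pos hc))] with w hw v
  have h1 := (A w - A z).le_of_opNorm_le (mem_ball_iff_norm.1 hw).le v
  have h2 := norm_sub_norm_le (A z v) (A w v)
  rw [norm_sub_rev] at h2
  have := h v
  rw [_root_.sub_apply] at h1
  linarith

theorem bb_open {A : ℂ → E →L[ℂ] F} (hA : Continuous A) : IsOpen {z | bb (A z)} :=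
  isOpen_iff_mem_nhds.2 fun _ h =>
    let ⟨c, hc, h'⟩ := bb.loc hA h
    h'.mono fun _ hw => ⟨c, hc, hw⟩

theorem bb_unif {A : ℂ → E →L[ℂ] F} (hA : Continuous A) {K : Set ℂ} (hK : IsCompact K)
    (h : ∀ z ∈ K, bb (A z)) : ∃ c : ℝ, 0 < c ∧ ∀ w ∈ K, ∀ v, c * ‖v‖ ≤ ‖A w v‖ := by
  refine hK.induction_on (p := fun s => ∃ c : ℝ, 0 < c ∧ ∀ w ∈ s, ∀ v, c * ‖v‖ ≤ ‖A w v‖)
    ⟨1, one_pos, by simp⟩ (fun s t hst ⟨c, hc, h'⟩ => ⟨c, hc, fun w hw => h' w (hst hw)⟩) ?_ ?_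
  · rintro s t ⟨c, hc, h1⟩ ⟨d, hd, h2⟩
    refine ⟨min c d, lt_min hc hd, fun w hw v => hw.elim (fun hw => le_trans ?_ (h1 w hw v))
      fun hw => le_trans ?_ (h2 w hw v)⟩ <;> gcongr <;> simp
  · intro z hz
    obtain ⟨c, hc, h'⟩ := bb.loc hA (h z hz)
    exact ⟨_, nhdsWithin_le_nhds h', c, hc, fun w hw => hw⟩

def QQ (T : E →L[ℂ] E) : Prop :=
  ∀ M : Submodule ℂ E, IsClosed (M : Set E) → (∀ x ∈ M, T x ∈ M) → M ≠ ⊥ → M.CoFG

theorem QQ.nofin {T : E →L[ℂ] E} (h : QQ T) (hE : ¬ FiniteDimensional ℂ E) (M : Submodule ℂ E)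
    [FiniteDimensional ℂ M] (hM : ∀ x ∈ M, T x ∈ M) : M = ⊥ := by
  by_contra hc
  have := h M M.closed_of_finiteDimensional hM hc
  exact hE (Module.Finite.of_submodule_quotient M)

theorem QQ.inj {T : E →L[ℂ] E} (h : QQ T) (hE : ¬ FiniteDimensional ℂ E) {P : E →L[ℂ] E}
    (hP : Commute T P) (h0 : P ≠ 0) : Function.Injective P := by
  have hc : ∀ x, T (P x) = P (T x) := fun x => congrArg (· x) hP.eq
  refine LinearMap.ker_eq_bot.1 (by_contra fun hk => h0 ?_ : (P : E →ₗ[ℂ] E).ker = ⊥)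
  have h1 := h _ P.isClosed_ker (fun x hx => by
    have : P x = 0 := hx
    show P (T x) = 0
    rw [← hc, this, map_zero]) hk
  have h2 := Module.Finite.iff_fg.2 (Submodule.range_fg_iff_ker_cofg.2 h1)
  have h3 := h.nofin hE (P : E →ₗ[ℂ] E).range (by rintro _ ⟨y, rfl⟩; exact ⟨T y, (hc y).symm⟩)
  exact ContinuousLinearMap.coe_injective (LinearMap.range_eq_bot.1 h3)

theorem QQ.inj' {T : E →L[ℂ] E} (h : QQ T) (hE : ¬ FiniteDimensional ℂ E) (z : ℂ) :
    Function.Injective (z • 1 - T : E →L[ℂ] E) := by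
  rw [injective_iff_map_eq_zero]
  intro x hx
  have h1 : T x = z • x := (sub_eq_zero.1 hx).symm
  refine Submodule.span_singleton_eq_bot.1 (h.nofin hE (Submodule.span ℂ {x}) fun y hy => ?_)
  obtain ⟨a, rfl⟩ := Submodule.mem_span_singleton.1 hy
  rw [map_smul, h1]
  exact Submodule.smul_mem _ _ (Submodule.smul_mem _ _ (Submodule.mem_span_singleton_self x))

def Cyc (S : E →L[ℂ] E) (x : E) : Prop :=
  ∀ N : Submodule ℂ E, IsClosed (N : Set E) → (∀ y ∈ N, S y ∈ N) → x ∈ N → N = ⊤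

noncomputable def AA (S : E →L[ℂ] E) (x : E) (z : ℂ) : E × ℂ →L[ℂ] E :=
  (z • 1 - S).coprod (ContinuousLinearMap.toSpanSingleton ℂ x)

theorem AA_app (S : E →L[ℂ] E) (x : E) (z : ℂ) (v : E × ℂ) :
    AA S x z v = z • v.1 - S v.1 + v.2 • x := rfl

theorem AA_cont (S : E →L[ℂ] E) (x : E) : Continuous (AA S x) := by
  have : AA S x = fun z => z • ContinuousLinearMap.fst ℂ E ℂ + AA S x 0 := by
    ext1 z; ext1 <;> ext <;> simp [AA_app, sub_eq_add_neg]
  rw [this]; fun_prop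

def DD (S : E →L[ℂ] E) (x : E) : Submodule ℂ E where
  carrier := {f | ∃ G : ℂ → E × ℂ, Differentiable ℂ G ∧ ∀ z, AA S x z (G z) = f}
  add_mem' := by
    rintro _ _ ⟨G, h1, h2⟩ ⟨G', h3, h4⟩
    exact ⟨G + G', h1.add h3, fun z => by rw [Pi.add_apply, map_add, h2, h4]⟩
  zero_mem' := ⟨0, differentiable_const _, fun z => map_zero _⟩
  smul_mem' := by
    rintro c _ ⟨G, h1, h2⟩
    exact ⟨c • G, h1.const_smul c, fun z => by rw [Pi.smul_apply, map_smul, h2]⟩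

theorem DD_dense {S : E →L[ℂ] E} {x : E} (h : Cyc S x) : (DD S x).topologicalClosure = ⊤ := by
  refine h _ (Submodule.isClosed_topologicalClosure _) (fun y hy => ?_)
    (Submodule.le_topologicalClosure _ ⟨fun _ => (0, 1), differentiable_const _, fun z => by
      simp [AA_app]⟩)
  refine map_mem_closure S.continuous hy ?_
  rintro f ⟨G, h1, h2⟩
  refine ⟨fun z => (S (G z).1 - (G z).2 • x, z * (G z).2), by fun_prop, fun z => ?_⟩
  rw [← h2 z]
  simp only [AA_app, map_add, map_sub, map_smul, smul_sub, mul_smul]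
  abel

theorem claimA {S : E →L[ℂ] E} {x : E} (h : Cyc S x) {V : Set ℂ} (hV : Bornology.IsBounded V)
    (hf : ∀ z ∈ frontier V, bb (AA S x z)) {μ : ℂ} (hμ : μ ∈ V) : bb (μ • 1 - S) := by
  obtain ⟨c, hc, hb⟩ := bb_unif (AA_cont S x) (Metric.isCompact_of_isClosed_isBounded
    isClosed_frontier (hV.closure.subset frontier_subset_closure)) hf
  refine ⟨c, hc, fun y => ?_⟩
  have hy : y ∈ closure (DD S x : Set E) := by
    rw [← Submodule.topologicalClosure_coe, DD_dense h]; trivial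
  refine closure_minimal (t := {y | c * ‖y‖ ≤ ‖(μ • 1 - S : E →L[ℂ] E) y‖}) ?_
    (isClosed_le (by fun_prop) (by fun_prop)) hy
  rintro y ⟨G, h1, h2⟩
  have hd : Differentiable ℂ fun z => ((y, 0) : E × ℂ) + (μ - z) • G z := by fun_prop
  have h3 := norm_le_of_forall_mem_frontier_norm_le hV hd.diffContOnCl
    (C := ‖(μ • 1 - S : E →L[ℂ] E) y‖ / c) (fun z hz => by
      rw [le_div_iff₀' hc]
      refine (hb z hz _).trans_eq (congrArg _ ?_)
      rw [map_add, map_smul, h2, AA_app]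
      simp [sub_smul]) (subset_closure hμ)
  rw [le_div_iff₀' hc] at h3
  simpa using h3

variable [CompleteSpace E]

theorem dich {S : E →L[ℂ] E} {x : E} (h : Cyc S x) {z : ℂ} (hz : bb (z • 1 - S)) :
    z ∈ resolventSet ℂ S ∨ bb (AA S x z) := by
  obtain ⟨K, hK⟩ := (bb_iff _).1 hz
  have hc := hK.isClosed_range (z • 1 - S).uniformContinuous
  by_cases hx : x ∈ (z • 1 - S : E →L[ℂ] E).range
  · left
    rw [spectrum.mem_resolventSet_iff, Algebra.algebraMap_eq_smul_one,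
      ContinuousLinearMap.isUnit_iff_bijective]
    refine ⟨hK.injective, LinearMap.range_eq_top.1 (h _ hc ?_ hx)⟩
    rintro _ ⟨y, rfl⟩
    exact ⟨S y, by simp⟩
  · right
    refine (bb_iff _).2 (ContinuousLinearMap.antilipschitz_of_injective_of_isClosed_range _ ?_ ?_)
    · rw [injective_iff_map_eq_zero]
      rintro ⟨y, a⟩ h0
      have h1 : (z • 1 - S : E →L[ℂ] E) y + a • x = 0 := h0
      have h2 : a = 0 := by
        by_contra ha
        refine hx ⟨-a⁻¹ • y, ?_⟩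
        rw [map_smul, ContinuousLinearMap.coe_coe, eq_neg_of_add_eq_zero_left h1]
        simp [smul_smul, inv_mul_cancel₀ ha]
      rw [h2, zero_smul, add_zero] at h1
      rw [h2, (injective_iff_map_eq_zero _).1 hK.injective y h1]
      rfl
    · have := Submodule.isClosed_sup_finiteDimensional (z • 1 - S : E →L[ℂ] E).range
        (Submodule.span ℂ {x}) hc
      convert! this using 1
      ext w
      rw [SetLike.mem_coe, Submodule.mem_sup]
      constructor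
      · rintro ⟨v, rfl⟩
        exact ⟨_, ⟨v.1, rfl⟩, _, Submodule.mem_span_singleton.2 ⟨v.2, rfl⟩, rfl⟩
      · rintro ⟨_, ⟨y, rfl⟩, _, h2, rfl⟩
        obtain ⟨a, rfl⟩ := Submodule.mem_span_singleton.1 h2
        exact ⟨(y, a), rfl⟩

omit [CompleteSpace E] in
theorem disj {S : E →L[ℂ] E} {x : E} {z : ℂ} (h1 : z ∈ resolventSet ℂ S) : ¬ bb (AA S x z) := by
  rintro ⟨c, hc, h⟩
  obtain ⟨u, hu⟩ := h1
  have := h (-(u⁻¹ : (E →L[ℂ] E)ˣ).1 x, 1)
  have e : AA S x z (-(u⁻¹ : (E →L[ℂ] E)ˣ).1 x, 1) = 0 := by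
    have h2 : u.1 ((u⁻¹ : (E →L[ℂ] E)ˣ).1 x) = x := congrArg (· x) u.mul_inv
    rw [hu, Algebra.algebraMap_eq_smul_one] at h2
    show (z • 1 - S : E →L[ℂ] E) (-(u⁻¹ : (E →L[ℂ] E)ˣ).1 x) + (1 : ℂ) • x = 0
    rw [map_neg, h2]; simp
  rw [e, norm_zero] at this
  have h3 : (1 : ℝ) ≤ ‖((-(u⁻¹ : (E →L[ℂ] E)ˣ).1 x, 1) : E × ℂ)‖ := by
    simp
  nlinarith

theorem res_bb {S : E →L[ℂ] E} {z : ℂ} (h1 : z ∈ resolventSet ℂ S) : bb (z • 1 - S) := by
  rw [spectrum.mem_resolventSet_iff, Algebra.algebraMap_eq_smul_one,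
    ContinuousLinearMap.isUnit_iff_bijective] at h1
  exact (bb_iff _).2 (ContinuousLinearMap.antilipschitz_of_injective_of_isClosed_range _ h1.1
    (by rw [h1.2.range_eq]; exact isClosed_univ))

omit [CompleteSpace E] in
theorem AA_bb {S : E →L[ℂ] E} {x : E} {z : ℂ} (h : bb (AA S x z)) : bb (z • 1 - S) := by
  obtain ⟨c, hc, h⟩ := h
  exact ⟨c, hc, fun v => by simpa [AA_app] using h (v, 0)⟩

end Pool.Agent.H.MP_15dca6_an
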