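import Pool.Agent.H.MP_15dca6_an.C

set_option autoImplicit false
open Filter Topology Complex Set
open scoped Classical

namespace Pool.Agent.H.MP_15dca6_an

theorem far_conn (R : ℝ) (hR : 0 ≤ R) : IsPreconnected {z : ℂ | R ≤ ‖z‖} := by
  have h := ((isPreconnected_sphere (E := ℂ) (by simp) 0 1).prod (isPreconnected_Ici (a := R))).image
    (fun p : ℂ × ℝ => p.2 • p.1) (by fun_prop)
  convert! h using 1
  ext z
  constructor
  · intro hz
    by_cases h0 : z = 0
    · exact ⟨(1, 0), ⟨by simp, by simpa [h0] using hz⟩, by simp [h0]⟩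
    · refine ⟨(‖z‖⁻¹ • z, ‖z‖), ⟨?_, hz⟩, ?_⟩
      · simp [h0]
      · simp only [smul_smul]; rw [mul_inv_cancel₀ (norm_ne_zero_iff.2 h0), one_smul]
  · rintro ⟨⟨u, t⟩, ⟨h1, h2⟩, rfl⟩
    have h3 : ‖u‖ = 1 := by simpa using h1
    have h4 : R ≤ t := h2
    show R ≤ ‖t • u‖
    rw [norm_smul, h3, mul_one, Real.norm_of_nonneg (hR.trans h4)]
    exact h4

theorem int_const {s : Set ℂ} (hs : IsPreconnected s) {f : ℂ → ℝ} (hf : Continuous f)
    (h : ∀ z ∈ s, ∃ n : ℤ, f z = n) {a b : ℂ} (ha : a ∈ s) (hb : b ∈ s) : f a = f b := by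
  have key : ∀ a ∈ s, ∀ b ∈ s, ¬ f a < f b := by
    intro a ha b hb hlt
    obtain ⟨n, hn⟩ := h a ha
    obtain ⟨m, hm⟩ := h b hb
    have h1 : n + 1 ≤ m := by
      have : (n : ℝ) < m := hn ▸ hm ▸ hlt
      exact_mod_cast this
    have h2 : (n : ℝ) + 1 ≤ m := by exact_mod_cast h1
    obtain ⟨c, hc, e⟩ := hs.intermediate_value ha hb hf.continuousOn
      (show (n : ℝ) + 1 / 2 ∈ Icc (f a) (f b) from ⟨by linarith, by linarith⟩)
    obtain ⟨k, hk⟩ := h c hc
    have h3 : (2 * k : ℤ) = 2 * n + 1 := by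
      have : (2 * k : ℝ) = 2 * n + 1 := by linarith
      exact_mod_cast this
    omega
  exact le_antisymm (not_lt.1 (key b hb a ha)) (not_lt.1 (key a ha b hb))

theorem plane {K O0 O1 : Set ℂ} (hK : IsClosed K) (h0 : IsOpen O0) (h1 : IsOpen O1)
    (hd : Disjoint O0 O1) (hc : ∀ z, z ∉ K → z ∈ O0 ∨ z ∈ O1) (hK0 : Disjoint K O0)
    (hb : Bornology.IsBounded O0ᶜ) (hs : IsPreconnected O0ᶜ)
    (hA : ∀ V, Bornology.IsBounded V → frontier V ⊆ O1 → Disjoint V K) : IsPreconnected K := by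
  rw [isPreconnected_iff_subset_of_fully_disjoint_closed hK]
  intro u v hu hv hs' huv
  by_contra! hcon
  obtain ⟨x, x1, x2⟩ := not_subset.1 hcon.1
  obtain ⟨y, y1, y2⟩ := not_subset.1 hcon.2
  obtain ⟨χ, c0, c1, -⟩ := exists_continuous_zero_one_of_isClosed hu hv huv
  have hχ : ∀ z ∈ K, ∃ n : ℤ, χ z = n := fun z hz =>
    (hs' hz).elim (fun h => ⟨0, by simpa using c0 h⟩) fun h => ⟨1, by simpa using c1 h⟩
  have hg : Continuous (O0.piecewise (fun z => exp (χ z * (2 * Real.pi * I))) fun _ => 1) := by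
    refine Continuous.piecewise (fun z hz => ?_) (by fun_prop) continuous_const
    rw [h0.frontier_eq] at hz
    have : z ∈ K := by_contra fun e => (hc z e).elim hz.2 fun e' =>
      Set.disjoint_left.1 (hd.closure_left h1) hz.1 e'
    obtain ⟨n, hn⟩ := hχ z this
    rw [hn, ofReal_intCast, exp_int_mul_two_pi_mul_I]
  obtain ⟨f, f1, f2⟩ := exists_continuousOn_eqOn_exp_comp (U := univ)
    (Homeomorph.Set.univ ℂ).toHomotopyEquiv.simplyConnectedSpace isOpen_univ hg.continuousOn (by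
      rintro ⟨z, -, hz⟩
      by_cases h : z ∈ O0
      · rw [piecewise_eq_of_mem _ _ _ h] at hz; exact exp_ne_zero _ hz
      · rw [piecewise_eq_of_notMem _ _ _ h] at hz; exact one_ne_zero hz)
  rw [continuousOn_univ] at f1
  have hp : (0 : ℝ) < 2 * Real.pi := by positivity
  let ψ : ℂ → ℝ := fun z => (f z).im / (2 * Real.pi)
  have ψc : Continuous ψ := by fun_prop
  have ψ1 : ∀ z ∈ O0ᶜ, ∃ n : ℤ, ψ z = n := fun z hz => by
    have := f2 (mem_univ z)
    rw [piecewise_eq_of_notMem _ _ _ hz, Function.comp_apply, exp_eq_one_iff] at this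
    obtain ⟨n, hn⟩ := this
    exact ⟨n, by simp only [ψ, hn]; rw [div_eq_iff hp.ne']; simp⟩
  have ψ2 : ∀ z ∈ O0, ∃ n : ℤ, χ z - ψ z = n := fun z hz => by
    have := f2 (mem_univ z)
    rw [piecewise_eq_of_mem _ _ _ hz, Function.comp_apply, exp_eq_exp_iff_exists_int] at this
    obtain ⟨n, hn⟩ := this
    refine ⟨-n, ?_⟩
    simp only [ψ, hn]
    rw [sub_eq_iff_eq_add, ← sub_eq_iff_eq_add', eq_div_iff hp.ne']
    simp
    ring
  have φc : Continuous fun z => χ z - ψ z := by fun_prop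
  have φ1 : ∀ z, z ∉ O1 → ∃ n : ℤ, χ z - ψ z = n := fun z hz => by
    by_cases h : z ∈ O0
    · exact ψ2 z h
    · obtain ⟨n, hn⟩ := hχ z (by_contra fun e => (hc z e).elim h hz)
      obtain ⟨m, hm⟩ := ψ1 z h
      exact ⟨n - m, by rw [hn, hm]; simp⟩
  have hK' : ∀ z ∈ K, z ∈ O0ᶜ := fun z hz => Set.disjoint_left.1 hK0 hz
  have e1 := int_const hs ψc ψ1 (hK' x x1) (hK' y y1)
  obtain ⟨m, hm⟩ := ψ1 y (hK' y y1)
  have ex : χ x - ψ x = 1 - m := by
    rw [e1, hm, c1 ((hs' x1).resolve_left x2)]; rfl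
  have ey : χ y - ψ y = -m := by
    rw [hm, c0 ((hs' y1).resolve_right y2)]; simp
  obtain ⟨R, hR, hR'⟩ := hb.subset_ball_lt 0 0
  have far : ∀ z ∈ {z : ℂ | R ≤ ‖z‖}, z ∈ O0 := fun z hz => by_contra fun e =>
    (mem_ball_zero_iff.1 (hR' e)).not_ge hz
  have hRm : (R : ℂ) ∈ {z : ℂ | R ≤ ‖z‖} := by simp [le_abs_self]
  have e2 := fun z hz => int_const (far_conn R hR.le) φc (fun z hz => ψ2 z (far z hz)) (a := z) hz hRm
  have fr : ∀ z, χ z - ψ z = 1 / 2 - m → z ∈ O1 := fun z hz => by_contra fun e => by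
    obtain ⟨k, hk⟩ := φ1 z e
    have h3 : (2 * k : ℤ) = 1 - 2 * m := by
      have : (2 * k : ℝ) = 1 - 2 * m := by linarith
      exact_mod_cast this
    omega
  rcases le_total (χ R - ψ R) (1 / 2 - m) with h | h
  · refine Set.disjoint_left.1 (hA {z | 1 / 2 - m < χ z - ψ z} ?_ fun z hz => fr z
      (frontier_lt_subset_eq continuous_const φc hz).symm) (by rw [mem_ofPred_eq]; linarith) x1
    refine (Metric.isBounded_ball (x := (0 : ℂ)) (r := R)).subset fun z hz => ?_
    rw [mem_ball_zero_iff]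
    by_contra! e
    exact absurd hz (by rw [mem_ofPred_eq, e2 z e]; exact h.not_gt)
  · refine Set.disjoint_left.1 (hA {z | χ z - ψ z < 1 / 2 - m} ?_ fun z hz => fr z
      (frontier_lt_subset_eq φc continuous_const hz)) (by rw [mem_ofPred_eq]; linarith) y1
    refine (Metric.isBounded_ball (x := (0 : ℂ)) (r := R)).subset fun z hz => ?_
    rw [mem_ball_zero_iff]
    by_contra! e
    exact absurd hz (by rw [mem_ofPred_eq, e2 z e]; exact h.not_gt)

variable {E : Type*} [NormedAddCommGroup E] [NormedSpace ℂ E] [CompleteSpace E]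

theorem cyc_conn {S : E →L[ℂ] E} (hQ : QQ S) (hE : ¬ FiniteDimensional ℂ E) {x : E}
    (h : Cyc S x) : IsConnected {z : ℂ | ¬ bb (z • 1 - S)} := by
  have hK : IsOpen {z : ℂ | bb (z • 1 - S)} := bb_open (A := fun z => z • 1 - S) (by fun_prop)
  have h0 := spectrum.isOpen_resolventSet (𝕜 := ℂ) S
  have h1 := bb_open (AA_cont S x)
  have hd : Disjoint (resolventSet ℂ S) {z | bb (AA S x z)} := Set.disjoint_left.2 fun z => disj
  have hb := (spectrum.isCompact (𝕜 := ℂ) S).isBounded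
  constructor
  · by_contra hn
    have : Nontrivial E := by
      by_contra hh
      rw [not_nontrivial_iff_subsingleton] at hh
      exact hE inferInstance
    obtain ⟨z, hz⟩ := spectrum.nonempty S
    rcases isPreconnected_univ.subset_or_subset h0 h1 hd (fun z _ =>
      dich h (by_contra fun e => hn ⟨z, e⟩)) with h2 | h2
    · exact hz (h2 (mem_univ z))
    · exact NormedSpace.unbounded_univ ℂ ℂ
        (hb.subset fun w _ e => Set.disjoint_left.1 hd e (h2 (mem_univ w)))
  · refine plane hK.isClosed_compl h0 h1 hd (fun z hz => dich h (not_not.1 hz))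
      (Set.disjoint_left.2 fun z hz e => hz (res_bb e)) hb
      (spec_conn S fun P Q hc h0 => ?_)
      fun V hV hf => Set.disjoint_left.2 fun z hz e => e (claimA h hV hf hz)
    by_cases hq : Q = 0
    · exact Or.inl hq
    · refine Or.inr (ContinuousLinearMap.ext fun v => hQ.inj hE hc hq ?_)
      rw [_root_.zero_apply, map_zero]
      exact congrArg (· v) h0

theorem bb_conn {T : E →L[ℂ] E} (hQ : QQ T) (hE : ¬ FiniteDimensional ℂ E) :
    IsConnected {z : ℂ | ¬ bb (z • 1 - T)} := by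
  have : Nontrivial E := by
    by_contra hh
    rw [not_nontrivial_iff_subsingleton] at hh
    exact hE inferInstance
  obtain ⟨x, hx⟩ := exists_ne (0 : E)
  let M : Submodule ℂ E := sInf {N | IsClosed (N : Set E) ∧ (∀ y ∈ N, T y ∈ N) ∧ x ∈ N}
  have M1 : IsClosed (M : Set E) := by
    rw [Submodule.coe_sInf]
    exact isClosed_biInter fun N hN => hN.1
  have M2 : ∀ y ∈ M, T y ∈ M := fun y hy =>
    Submodule.mem_sInf.2 fun N hN => hN.2.1 y (Submodule.mem_sInf.1 hy N hN)
  have M3 : x ∈ M := Submodule.mem_sInf.2 fun N hN => hN.2.2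
  have M4 := hQ M M1 M2 fun e => hx (by rw [e] at M3; exact M3)
  have := M1.completeSpace_coe
  let S : M →L[ℂ] M := (T ∘L M.subtypeL).codRestrict M fun y => M2 y y.2
  have up : ∀ N : Submodule ℂ M, IsClosed (N : Set M) → (∀ y ∈ N, S y ∈ N) →
      IsClosed (N.map M.subtype : Set E) ∧ ∀ y ∈ N.map M.subtype, T y ∈ N.map M.subtype :=
    fun N h1 h2 => ⟨M1.isClosedEmbedding_subtypeVal.isClosedMap _ h1, by
      rintro _ ⟨y, hy, rfl⟩; exact ⟨S y, h2 y hy, rfl⟩⟩
  have hS : QQ S := fun N h1 h2 h3 => by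
    have h4 := hQ _ (up N h1 h2).1 (up N h1 h2).2 fun e =>
      h3 (Submodule.map_injective_of_injective M.injective_subtype (e.trans (by simp)))
    have h5 := Submodule.CoFG.ker ((N.map M.subtype).mkQ ∘ₗ M.subtype)
    rwa [LinearMap.ker_comp, Submodule.ker_mkQ,
      Submodule.comap_map_eq_of_injective M.injective_subtype] at h5
  have hC : Cyc S ⟨x, M3⟩ := fun N h1 h2 h3 => by
    rw [eq_top_iff]
    intro y _
    obtain ⟨w, hw, e⟩ := Submodule.mem_sInf.1 y.2 (N.map M.subtype)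
      ⟨(up N h1 h2).1, (up N h1 h2).2, _, h3, rfl⟩
    exact Subtype.ext e ▸ hw
  convert! cyc_conn hS (fun _ => hE (Module.Finite.of_submodule_quotient M)) hC using 4 with z
  constructor
  · rintro ⟨c, hc, h⟩
    exact ⟨c, hc, fun v => h v⟩
  · intro h
    obtain ⟨K, hK⟩ := (bb_iff _).1 h
    have h1 := M1.isClosedEmbedding_subtypeVal.isClosedMap _
      (hK.isClosed_range (z • 1 - S).uniformContinuous)
    refine (bb_iff _).2 (ContinuousLinearMap.antilipschitz_of_injective_of_isClosed_range _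
      (hQ.inj' hE z) ?_)
    obtain ⟨N, hN⟩ := M.exists_isCompl
    have h2 := Module.Finite.iff_fg.2 (M4.fg_of_isCompl hN)
    have h3 := Submodule.isClosed_sup_finiteDimensional (M.map (z • 1 - T : E →L[ℂ] E).toLinearMap)
      (N.map (z • 1 - T : E →L[ℂ] E).toLinearMap) (by
        convert! h1 using 1
        ext w
        constructor
        · rintro ⟨y, hy, rfl⟩; exact ⟨_, ⟨⟨y, hy⟩, rfl⟩, rfl⟩
        · rintro ⟨_, ⟨y, rfl⟩, rfl⟩; exact ⟨y, y.2, rfl⟩)
    rwa [← Submodule.map_sup, hN.sup_eq_top, Submodule.map_top] at h3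

omit [CompleteSpace E] in
theorem fin_cpt (A : E →L[ℂ] E) (h : (A : E →ₗ[ℂ] E).HasFiniteRange) : IsCompactOperator A := by
  have := Module.Finite.iff_fg.2 h
  have := FiniteDimensional.proper ℂ (A : E →ₗ[ℂ] E).range
  exact (isCompactOperator_of_locallyCompactSpace_dom
    (A.codRestrict (A : E →ₗ[ℂ] E).range fun y => ⟨y, rfl⟩)).clm_comp (Submodule.subtypeL _)

theorem ess_iff {T : E →L[ℂ] E} (hQ : QQ T) (hE : ¬ FiniteDimensional ℂ E) (z : ℂ) :
    (∃ B : E →L[ℂ] E, IsCompactOperator (B * (z • 1 - T) - 1 : E →L[ℂ] E) ∧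
      IsCompactOperator ((z • 1 - T) * B - 1 : E →L[ℂ] E)) ↔ bb (z • 1 - T) := by
  have hi := hQ.inj' hE z
  have hc : ∀ y, T ((z • 1 - T : E →L[ℂ] E) y) = (z • 1 - T : E →L[ℂ] E) (T y) := by simp
  generalize z • 1 - T = A at hi hc
  constructor
  · rintro ⟨B, h1, -⟩
    by_contra hb
    simp only [bb, not_exists, not_and, not_forall, not_le] at hb
    have : ∀ n : ℕ, ∃ v : E, ‖v‖ = 1 ∧ ‖A v‖ < 1 / (n + 1) := fun n => by
      obtain ⟨v, hv⟩ := hb (1 / (n + 1)) (by positivity)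
      have h0 : 0 < ‖v‖ := by
        by_contra! e
        rw [norm_le_zero_iff] at e
        simp [e] at hv
      refine ⟨(‖v‖⁻¹ : ℂ) • v, by simp [norm_smul, h0.ne'], ?_⟩
      rw [map_smul, norm_smul, norm_inv, norm_real, norm_norm, inv_mul_lt_iff₀ h0, mul_comm]
      exact hv
    choose v v1 v2 using this
    obtain ⟨K, hK, hK'⟩ := h1.image_closedBall_subset_compact 1
    obtain ⟨y, -, φ, hφ, hy⟩ := hK.tendsto_subseq (x := fun n => (B * A - 1 : E →L[ℂ] E) (v n))
      fun n => hK' ⟨v n, by simp [v1], rfl⟩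
    have t1 : Tendsto (fun n => A (v (φ n))) atTop (𝓝 0) :=
      (squeeze_zero_norm (fun n => (v2 n).le) tendsto_one_div_add_atTop_nhds_zero_nat).comp
        hφ.tendsto_atTop
    have t2 : Tendsto (fun n => v (φ n)) atTop (𝓝 (B 0 - y)) := by
      simpa [Function.comp_def] using ((B.continuous.tendsto 0).comp t1).sub hy
    have e1 := tendsto_nhds_unique ((A.continuous.tendsto _).comp t2) t1
    have e2 := tendsto_nhds_unique t2.norm (by simp only [v1]; exact tendsto_const_nhds)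
    rw [(injective_iff_map_eq_zero _).1 hi _ e1, norm_zero] at e2
    exact zero_ne_one e2
  · intro h
    obtain ⟨K, hK⟩ := (bb_iff _).1 h
    have h1 := hK.isClosedEmbedding A.uniformContinuous
    have h2 : A.ker = ⊥ := LinearMap.ker_eq_bot.2 hi
    have hF : A.IsFredholm := ⟨h1.isEmbedding.isStrictMap, h1.isClosed_range,
      by rw [h2]; infer_instance,
      hQ _ h1.isClosed_range (by rintro _ ⟨y, rfl⟩; exact ⟨T y, (hc y).symm⟩) fun e => hE (by
        have : Subsingleton E := ⟨fun a b => hi (by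
          have := LinearMap.range_eq_bot.1 e
          exact (congrArg (· a) this).trans (congrArg (· b) this).symm)⟩
        infer_instance),
      by rw [h2]; exact Submodule.closedComplemented_bot⟩
    obtain ⟨B, h3, h4⟩ := ContinuousLinearMap.isFredholm_iff_exists_isQuasiInverse.1 hF
    exact ⟨B, fin_cpt _ (LinearMap.FiniteRangeSetoid.equiv_iff_hasFiniteRange.1 h3),
      fin_cpt _ (LinearMap.FiniteRangeSetoid.equiv_iff_hasFiniteRange.1 h4)⟩

end Pool.Agent.H.MP_15dca6_an
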